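import Pool.Agent.Q235.FD.Cen

/-! The law for functions whose averages are `O(1 / p ^ (1 / 2))`. -/

set_option autoImplicit false

namespace Pool.Agent.Q93.KM

open Finset Filter Pool.Agent.Q235.FD

lemma sum_inv_sqrt_primes {P : Finset ℕ} {x : ℕ} (hx : 1 ≤ x) (hP : ∀ p ∈ P, p.Prime ∧ p ≤ x) :
    ∑ p ∈ P, 1 / Real.sqrt p ≤ Real.sqrt (max 1 P.card) * (1 + Real.log x) := by
  have h1 := sum_inv_primes hP
  have hl : 0 ≤ Real.log x := Real.log_nonneg (by exact_mod_cast hx)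
  have h2 : (∑ p ∈ P, 1 * (1 / Real.sqrt p)) ^ 2 ≤ (∑ p ∈ P, (1 : ℝ) ^ 2) * ∑ p ∈ P, (1 / Real.sqrt p) ^ 2 :=
    sum_mul_sq_le_sq_mul_sq _ _ _
  have h3 : ∑ p ∈ P, (1 / Real.sqrt p) ^ 2 = ∑ p ∈ P, 1 / (p : ℝ) := by
    refine sum_congr rfl fun p _ => ?_
    rw [div_pow, one_pow, Real.sq_sqrt (Nat.cast_nonneg p)]
  have h4 : ∑ p ∈ P, (1 : ℝ) ^ 2 = P.card := by simp
  simp only [one_mul] at h2
  rw [h3, h4] at h2
  have h5 : (∑ p ∈ P, 1 / Real.sqrt p) ^ 2 ≤ (max 1 (P.card : ℝ)) * (1 + Real.log x) ^ 2 := by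
    refine h2.trans ?_
    have h6 : (P.card : ℝ) * ∑ p ∈ P, 1 / (p : ℝ) ≤ (max 1 (P.card : ℝ)) * (1 + Real.log x) := by
      refine mul_le_mul (le_max_right _ _) h1 (sum_nonneg fun p _ => by positivity) (by positivity)
    refine h6.trans (mul_le_mul_of_nonneg_left ?_ (by positivity))
    nlinarith
  have h7 : (max 1 (P.card : ℝ)) * (1 + Real.log x) ^ 2 = (Real.sqrt (max 1 P.card) * (1 + Real.log x)) ^ 2 := by
    rw [mul_pow, Real.sq_sqrt (by positivity)]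
  rw [h7] at h5
  exact le_of_sq_le_sq h5 (by positivity)
where
  le_of_sq_le_sq {a b : ℝ} (h : a ^ 2 ≤ b ^ 2) (hb : 0 ≤ b) : a ≤ b := abs_le_of_sq_le_sq' h hb |>.2

variable {L : Type} [Fintype L]

/-- functions whose averages are `O(1 / p ^ (1 / 2))` -/
theorem centered2 [Nonempty L] {b : ℕ} (hb : 2 ≤ b) {δ : ℝ} (hδ : 0 < δ) (A B A₃ : ℕ) {τ : Type} (U : ℕ → Finset τ)
    (hU : ∀ x, 2 ≤ x → (U x).card ≤ x ^ A₃) (G : τ → ℕ → (L → ℕ) → ℝ)
    (hper : ∀ t p n, p.Prime → G t p n = G t p (fun i => n i % p)) {C : ℝ} (hC : 1 ≤ C)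
    (hbd : ∀ t p n, p.Prime → |G t p n| ≤ C) (hav : ∀ t p, p.Prime → |avg p (G t p)| ≤ C / Real.sqrt p) :
    ForAlmostAll L b A (fun (θ : Sets B) x m => ∀ P ∈ θ.S x, ∀ t ∈ U x,
      |∑ p ∈ P, G t p m| ≤ Real.sqrt (max 1 P.card) * (x : ℝ) ^ δ) := by
  have hC0 : 0 < C := by linarith
  obtain ⟨x₁, hx₁⟩ := eventually_le hδ C hC0.le
  have hper' : ∀ t p n, p.Prime → G t p n / C = G t p (fun i => n i % p) / C := fun t p n hp => by rw [hper t p n hp]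
  have hb' : ∀ t p n, p.Prime → |G t p n / C| ≤ 1 := fun t p n hp => by
    rw [abs_div, abs_of_pos hC0, div_le_one hC0]
    exact hbd t p n hp
  refine forAlmostAll_of hb (show 0 < δ / 2 by positivity) (fun θ : Sets B => funData θ U hU (fun t p n => G t p n / C) hper' hb') (x₁ + 2) ?_
  intro θ x m hx h P hP t ht
  have hPr := θ.prime x P hP
  have h1 := law_fun θ U hU _ hper' hb' h P hP t ht
  have h2 : ∑ p ∈ P, avg p (fun n => (G t p n / C) ^ 2) ≤ P.card := by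
    have : ∑ p ∈ P, avg p (fun n => (G t p n / C) ^ 2) ≤ ∑ p ∈ P, (1 : ℝ) := by
      apply sum_le_sum
      intro p hp
      have h3 : avg p (fun n => (G t p n / C) ^ 2) ≤ avg (L := L) p (fun _ => 1) := by
        apply avg_mono
        intro n
        rw [sq_le_one_iff_abs_le_one]
        exact hb' t p n (hPr p hp).1
      rwa [avg_const (hPr p hp).1.one_lt.le] at h3
    simpa using this
  have h4 : Real.sqrt (max 1 (∑ p ∈ P, avg p (fun n => (G t p n / C) ^ 2))) ≤ Real.sqrt (max 1 P.card) :=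
    Real.sqrt_le_sqrt (max_le_max le_rfl h2)
  have h5 : |∑ p ∈ P, avg p (fun n => G t p n / C)| ≤ Real.sqrt (max 1 P.card) * (1 + Real.log x) := by
    refine (abs_sum_le_sum_abs _ _).trans (le_trans (sum_le_sum fun p hp => ?_) (sum_inv_sqrt_primes (by omega : 1 ≤ x) hPr))
    rw [avg_div, abs_div, abs_of_pos hC0, div_le_iff₀ hC0]
    have := hav t p (hPr p hp).1
    calc |avg p (G t p)| ≤ C / Real.sqrt p := this
      _ = 1 / Real.sqrt p * C := by ring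
  have h6 : ∑ p ∈ P, G t p m / C = (∑ p ∈ P, G t p m) / C := (sum_div _ _ _).symm
  rw [h6] at h1
  obtain ⟨W, hW⟩ : ∃ W, W = Real.sqrt (max 1 (P.card : ℝ)) := ⟨_, rfl⟩
  rw [← hW] at h4 h5 ⊢
  have hxp : (0 : ℝ) ≤ (x : ℝ) ^ (δ / 2) := by positivity
  have h7 : |(∑ p ∈ P, G t p m) / C| ≤ W * (x : ℝ) ^ (δ / 2) + W * (1 + Real.log x) := by
    have h8 := abs_add_le ((∑ p ∈ P, G t p m) / C - ∑ p ∈ P, avg p (fun n => G t p n / C)) (∑ p ∈ P, avg p (fun n => G t p n / C))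
    rw [sub_add_cancel] at h8
    have h9 := mul_le_mul_of_nonneg_right h4 hxp
    linarith
  rw [abs_div, abs_of_pos hC0, div_le_iff₀ hC0] at h7
  have hW0 : 0 ≤ W := by rw [hW]; positivity
  calc |∑ p ∈ P, G t p m| ≤ (W * (x : ℝ) ^ (δ / 2) + W * (1 + Real.log x)) * C := h7
    _ = W * (C * (x : ℝ) ^ (δ / 2) + C * (1 + Real.log x)) := by ring
    _ ≤ W * (x : ℝ) ^ δ := mul_le_mul_of_nonneg_left (hx₁ x (by omega)) hW0

end Pool.Agent.Q93.KM
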