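import Pool.Agent.Q93.KM.Joint
import Pool.Agent.Q235.FD.Hyp4

/-! The joint moments of the traces of several hyperelliptic curves. -/

set_option autoImplicit false

namespace Pool.Agent.Q93.KM

open Finset Pool.Agent.Q235.FD

open Classical in
/-- the powers of `-ntrace` at good primes -/
noncomputable def fpow {D : ℕ} (k p : ℕ) (n : Fin D → ℕ) : ℝ := if GoodPrime p n then (-(ntrace p n)) ^ k else 0

lemma fpow_mod {D : ℕ} (k p : ℕ) (n : Fin D → ℕ) : fpow k p n = fpow k p (fun i => n i % p) := by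
  unfold fpow
  rw [ntrace_mod]
  by_cases h : GoodPrime p n
  · rw [if_pos h, if_pos ((good_mod p n).2 h)]
  · rw [if_neg h, if_neg (fun h' => h ((good_mod p n).1 h'))]

lemma fpow_eq {D : ℕ} (k p : ℕ) (n : Fin D → ℕ) : fpow k p n = (-1) ^ k * cpow k p n + gmom k * (1 - bad p n) := by
  have h0 : (-1 : ℝ) ^ k * gmom k = gmom k := by
    rcases Nat.even_or_odd k with he | ho
    · rw [he.neg_one_pow, one_mul]
    · have h7 : gmom k = 0 := by unfold gmom; rw [if_neg (Nat.not_even_iff_odd.2 ho)]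
      rw [h7, mul_zero]
  unfold fpow cpow bad
  by_cases h : GoodPrime p n
  · rw [if_pos h, if_pos h, if_pos h, mul_sub, h0, neg_pow]
    ring
  · rw [if_neg h, if_neg h, if_neg h]
    ring

lemma fpow_facts (D : ℕ) (hD : Odd D) : ∃ M : ℝ, 1 ≤ M ∧ ∀ k ≤ D, gmom k ≤ M ∧
    ∀ p : ℕ, p.Prime → (∀ n : Fin D → ℕ, |fpow k p n| ≤ M) ∧ |avg p (fpow (D := D) k p) - gmom k| ≤ M / Real.sqrt p := by
  classical
  have h0 := C0_one D
  choose C hC0 hC using fun k : Fin (D + 1) => avg_cpow hD k.1 (by omega)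
  have hS : 0 ≤ ∑ k, C k := sum_nonneg fun k _ => hC0 k
  obtain ⟨G, hG⟩ : ∃ G : ℝ, G = ∑ k ∈ range (D + 1), gmom k := ⟨_, rfl⟩
  have hG0 : 0 ≤ G := by rw [hG]; exact sum_nonneg fun k _ => gmom_nonneg k
  have hgG : ∀ k ≤ D, gmom k ≤ G := fun k hk => by
    rw [hG]
    exact single_le_sum (f := fun k => gmom k) (fun k _ => gmom_nonneg k) (mem_range.2 (by omega))
  refine ⟨1 + C0 D + G + ∑ k, C k + G * (D + 2), by
    have : 0 ≤ G * ((D : ℝ) + 2) := by positivity
    linarith, fun k hk => ⟨?_, fun p hp => ⟨fun n => ?_, ?_⟩⟩⟩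
  · have : 0 ≤ G * ((D : ℝ) + 2) := by positivity
    have := hgG k hk
    linarith
  · have h3 := gmom_nonneg k
    have h4 := hgG k hk
    have h5 := cpow_bound hD hk hp n
    have h6 : |1 - bad p n| ≤ 1 := by
      unfold bad
      split_ifs <;> norm_num
    rw [fpow_eq]
    refine (abs_add_le _ _).trans ?_
    rw [abs_mul, abs_pow, abs_neg, abs_one, one_pow, one_mul, abs_mul, abs_of_nonneg h3]
    have h7 : gmom k * |1 - bad p n| ≤ gmom k * 1 := mul_le_mul_of_nonneg_left h6 h3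
    have : 0 ≤ G * ((D : ℝ) + 2) := by positivity
    linarith
  · have hp1 : (1 : ℝ) ≤ p := by exact_mod_cast hp.one_lt.le
    have hs1 : (1 : ℝ) ≤ Real.sqrt p := by rw [Real.one_le_sqrt]; exact hp1
    have hs0 : 0 < Real.sqrt p := by linarith
    have h1 : fpow (D := D) k p = fun n => (-1) ^ k * cpow k p n + gmom k * (1 - bad p n) := funext fun n => fpow_eq k p n
    have h2 : avg p (fun n : Fin D → ℕ => gmom k * (1 - bad p n)) = gmom k * (1 - avg p (bad (D := D) p)) := by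
      rw [avg_mul, avg_sub, avg_const hp.one_lt.le]
    rw [h1, avg_add, avg_mul, h2]
    have e : (-1) ^ k * avg p (cpow (D := D) k p) + gmom k * (1 - avg p (bad (D := D) p)) - gmom k =
      (-1) ^ k * avg p (cpow (D := D) k p) - gmom k * avg p (bad (D := D) p) := by ring
    have e2 : (-1 : ℝ) ^ k * avg p (fun n : Fin D → ℕ => cpow k p n) + gmom k * (1 - avg p (bad (D := D) p)) - gmom k =
      (-1) ^ k * avg p (cpow (D := D) k p) - gmom k * avg p (bad (D := D) p) := e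
    rw [e2]
    refine (abs_sub _ _).trans ?_
    have h3 := gmom_nonneg k
    rw [abs_mul, abs_pow, abs_neg, abs_one, one_pow, one_mul, abs_mul, abs_of_nonneg h3]
    have h5 := hC ⟨k, by omega⟩ p hp
    have h6 := avg_bad (D := D) hD.pos hp
    have h7 : C ⟨k, by omega⟩ ≤ ∑ k, C k := single_le_sum (f := C) (fun k _ => hC0 k) (mem_univ _)
    have h8 : gmom k * |avg p (bad (D := D) p)| ≤ G * ((D + 2) / p) := mul_le_mul (hgG k hk) h6 (abs_nonneg _) hG0
    have h9 : (1 : ℝ) / p ≤ 1 / Real.sqrt p := by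
      apply one_div_le_one_div_of_le hs0
      calc Real.sqrt p = Real.sqrt p * 1 := (mul_one _).symm
        _ ≤ Real.sqrt p * Real.sqrt p := mul_le_mul_of_nonneg_left hs1 hs0.le
        _ = p := Real.mul_self_sqrt (by linarith)
    have h10 : 0 ≤ G * ((D : ℝ) + 2) := by positivity
    calc _ ≤ C ⟨k, by omega⟩ / p + G * ((D + 2) / p) := add_le_add h5 h8
      _ = (C ⟨k, by omega⟩ + G * (D + 2)) * (1 / p) := by ring
      _ ≤ (C ⟨k, by omega⟩ + G * (D + 2)) * (1 / Real.sqrt p) :=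
          mul_le_mul_of_nonneg_left h9 (add_nonneg (hC0 _) h10)
      _ ≤ (1 + C0 D + G + ∑ k, C k + G * (D + 2)) * (1 / Real.sqrt p) := by
          refine mul_le_mul_of_nonneg_right ?_ (by positivity)
          linarith
      _ = _ := by ring

/-- the law for the joint moments -/
theorem jac_law (s : ℕ) (hs : 1 ≤ s) (D : Fin s → ℕ) (hD : ∀ j, Odd (D j)) {b : ℕ} (hb : 2 ≤ b) {δ : ℝ} (hδ : 0 < δ) (A B : ℕ) :
    ForAlmostAll (Σ j : Fin s, Fin (D j)) b A (fun (θ : Sets B) x m => ∀ P ∈ θ.S x,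
      |∑ p ∈ P, (1 - ∏ j, fpow 0 p (fun i => m ⟨j, i⟩))| ≤ Real.sqrt (max 1 P.card) * (x : ℝ) ^ δ ∧
      ∀ k : Fin s → ℕ, (∀ j, k j ≤ D j) →
      |∑ p ∈ P, (∏ j, fpow (k j) p (fun i => m ⟨j, i⟩) - (∏ j, gmom (k j)) * ∏ j, fpow 0 p (fun i => m ⟨j, i⟩))| ≤
        Real.sqrt (max 1 P.card) * (x : ℝ) ^ δ) := by
  classical
  have hN : Nonempty (Fin s) := ⟨⟨0, hs⟩⟩
  have hN2 : ∀ j, Nonempty (Fin (D j)) := fun j => ⟨⟨0, (hD j).pos⟩⟩
  choose M hM1 hM using fun j : Fin s => fpow_facts (D j) (hD j)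
  have hle : ∀ j, M j ≤ ∑ j, M j := fun j => single_le_sum (f := M) (fun j _ => by linarith [hM1 j]) (mem_univ j)
  have hM' : 1 ≤ ∑ j, M j := (hM1 ⟨0, hs⟩).trans (hle _)
  have h := joint_law (ι := Fin s) (κ := fun j => Fin (D j)) (T := fun j => Fin (D j + 1))
    (fun j t p n => fpow (t : ℕ) p n) (fun j t => gmom (t : ℕ)) (fun j => ⟨0, by omega⟩)
    (fun j => by unfold gmom; simp) (fun j t p n _ => fpow_mod _ p n) (M := ∑ j, M j) hM'
    (fun j t p n hp => ((((hM j) t.1 (by omega)).2 p hp).1 n).trans (hle j))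
    (fun j t => by
      rw [abs_of_nonneg (gmom_nonneg _)]
      exact ((hM j) t.1 (by omega)).1.trans (hle j))
    (fun j t p hp => ((((hM j) t.1 (by omega)).2 p hp).2).trans (div_le_div_of_nonneg_right (hle j) (Real.sqrt_nonneg _)))
    hb hδ A B
  refine h.mono 0 ?_
  intro θ x m _ g P hP
  refine ⟨(g P hP (fun j => ⟨0, by omega⟩)).2, fun k hk => ?_⟩
  exact (g P hP (fun j => ⟨k j, by have := hk j; omega⟩)).1

end Pool.Agent.Q93.KM
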