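import Pool.Agent.Q235.FD.Tools

/-! Averages of products of functions of disjoint sets of variables. -/

set_option autoImplicit false

namespace Pool.Agent.Q93.KM

open Finset Pool.Agent.Q235.FD

lemma abs_prod_le_pow {ι : Type} (T : Finset ι) {x : ι → ℝ} {M : ℝ} (h : ∀ j ∈ T, |x j| ≤ M) : |∏ j ∈ T, x j| ≤ M ^ T.card := by
  rw [abs_prod]
  calc ∏ j ∈ T, |x j| ≤ ∏ _j ∈ T, M := prod_le_prod (fun j _ => abs_nonneg _) h
    _ = M ^ T.card := prod_const M

lemma prod_diff {ι : Type} [DecidableEq ι] (T : Finset ι) (x y : ι → ℝ) {M ε : ℝ} (hM : 1 ≤ M) (hε : 0 ≤ ε) (hx : ∀ j ∈ T, |x j| ≤ M)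
    (hy : ∀ j ∈ T, |y j| ≤ M) (h : ∀ j ∈ T, |x j - y j| ≤ ε) :
    |∏ j ∈ T, x j - ∏ j ∈ T, y j| ≤ T.card * M ^ T.card * ε := by
  induction T using Finset.induction_on with
  | empty => simp
  | insert a T ha ih =>
    have ih' := ih (fun j hj => hx j (mem_insert_of_mem hj)) (fun j hj => hy j (mem_insert_of_mem hj))
      (fun j hj => h j (mem_insert_of_mem hj))
    have hX : |∏ j ∈ T, x j| ≤ M ^ T.card := abs_prod_le_pow T fun j hj => hx j (mem_insert_of_mem hj)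
    rw [prod_insert ha, prod_insert ha, card_insert_of_notMem ha]
    have e : x a * ∏ j ∈ T, x j - y a * ∏ j ∈ T, y j = (x a - y a) * ∏ j ∈ T, x j + y a * (∏ j ∈ T, x j - ∏ j ∈ T, y j) := by ring
    rw [e]
    refine (abs_add_le _ _).trans ?_
    rw [abs_mul, abs_mul]
    have h1 : |x a - y a| * |∏ j ∈ T, x j| ≤ ε * M ^ T.card :=
      mul_le_mul (h a (mem_insert_self _ _)) hX (abs_nonneg _) hε
    have h2 : |y a| * |∏ j ∈ T, x j - ∏ j ∈ T, y j| ≤ M * (T.card * M ^ T.card * ε) :=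
      mul_le_mul (hy a (mem_insert_self _ _)) ih' (abs_nonneg _) (by linarith)
    have h3 : ε * M ^ T.card ≤ M * (M ^ T.card * ε) := by
      have : 0 ≤ M ^ T.card * ε := by positivity
      nlinarith
    push_cast
    calc _ ≤ ε * M ^ T.card + M * (T.card * M ^ T.card * ε) := add_le_add h1 h2
      _ ≤ M * (M ^ T.card * ε) + M * (T.card * M ^ T.card * ε) := by linarith
      _ = _ := by ring

lemma avg_prod {ι : Type} [Fintype ι] [DecidableEq ι] {κ : ι → Type} [∀ j, Fintype (κ j)] (p : ℕ)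
    (h : ∀ j, (κ j → ℕ) → ℝ) :
    avg p (fun n : (Σ j, κ j) → ℕ => ∏ j, h j (fun i => n ⟨j, i⟩)) = ∏ j, avg p (h j) := by
  classical
  unfold avg
  rw [prod_div_distrib]
  have h1 : ∏ j, (p : ℝ) ^ Fintype.card (κ j) = (p : ℝ) ^ Fintype.card (Σ j, κ j) := by
    rw [prod_pow_eq_pow_sum, Fintype.card_sigma]
  rw [h1]
  congr 1
  rw [Finset.prod_univ_sum]
  refine sum_bij (fun n _ => fun j i => n ⟨j, i⟩) ?_ ?_ ?_ ?_
  · intro n hn
    simp only [Fintype.mem_piFinset] at hn ⊢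
    exact fun j i => hn ⟨j, i⟩
  · intro n _ n' _ h
    funext l
    obtain ⟨j, i⟩ := l
    exact congrFun (congrFun h j) i
  · intro N hN
    refine ⟨fun l => N l.1 l.2, ?_, ?_⟩
    · simp only [Fintype.mem_piFinset] at hN ⊢
      exact fun l => hN l.1 l.2
    · rfl
  · intro n _
    rfl

end Pool.Agent.Q93.KM
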