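import Pool.Agent.Q93.KM.Fourth
import Pool.Agent.H498R2.KlWeil
import Pool.Agent.TH894.NF3
import Pool.Agent.Q235.FD.Hyp
import Pool.Agent.Q93.KM.Prod

/-! The joint moments of several Kloosterman sums. -/

set_option autoImplicit false

namespace Pool.Agent.Q93.KM

open Finset Pool.Agent.Q235.FD
open Pool.Agent.TH375.KL (rk m1 m2 m3 m4 rk_eq prim)
open Pool.Agent.TH894.NF (kls kls_mod kls_eq)

lemma rk_bound {p : ℕ} [hp : Fact p.Prime] {a : ZMod p} (ha : a ≠ 0) : |rk p a 1| ≤ 2 * Real.sqrt p := by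
  have h0 : |rk p a 1| = ‖Pool.Agent.Helper916.Kl (ZMod.stdAddChar (N := p)) a 1‖ := by
    have h4 : Pool.Agent.Helper916.Kl (ZMod.stdAddChar (N := p)) a 1 = (rk p a 1 : ℂ) := (rk_eq a 1).symm
    rw [h4, Complex.norm_real, Real.norm_eq_abs]
  rw [h0]
  by_cases h2 : p = 2
  · have h1 : ‖Pool.Agent.Helper916.Kl (ZMod.stdAddChar (N := p)) a 1‖ ≤ (p : ℝ) - 1 := by
      unfold Pool.Agent.Helper916.Kl
      refine (norm_sum_le _ _).trans ?_
      have : ∀ z ∈ (univ : Finset (ZMod p)).erase 0, ‖(ZMod.stdAddChar (N := p)) (a * z + 1 * z⁻¹)‖ ≤ 1 := fun z _ => by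
        rw [AddChar.norm_apply]
      refine (sum_le_sum this).trans ?_
      rw [sum_const, nsmul_eq_mul, mul_one, cardU]
    refine h1.trans ?_
    have h3 : (1 : ℝ) ≤ Real.sqrt p := by rw [Real.one_le_sqrt]; exact_mod_cast hp.out.one_lt.le
    have h4 : (p : ℝ) = 2 := by exact_mod_cast h2
    linarith
  · have hF : ringChar (ZMod p) ≠ 2 := by rw [ZMod.ringChar_zmod_n]; exact h2
    have h1 := Pool.Agent.H498R2.Kl.kloosterman_le hF (prim (p := p)) ha (one_ne_zero)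
    rw [ZMod.card] at h1
    refine le_trans (le_of_eq ?_) h1
    congr 1
    unfold Pool.Agent.Helper916.Kl
    have h3 : ∀ x : ZMod p, (if x = 0 then (0 : ℂ) else (ZMod.stdAddChar (N := p)) (a * x + 1 * x⁻¹)) =
        if x ∈ (univ : Finset (ZMod p)).erase 0 then (ZMod.stdAddChar (N := p)) (a * x + 1 * x⁻¹) else 0 := by
      intro x
      by_cases h : x = 0
      · rw [if_pos h, if_neg (fun h' => (mem_erase.1 h').1 h)]
      · rw [if_neg h, if_pos (mem_erase.2 ⟨h, mem_univ _⟩)]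
    rw [sum_congr rfl fun x _ => h3 x, sum_ite_mem, univ_inter]

/-- the moments of `2 cos` of the Sato-Tate distribution: the Catalan numbers -/
noncomputable def st (k : ℕ) : ℝ := if Even k then (catalan (k / 2) : ℝ) else 0

lemma st0 : st 0 = 1 := by unfold st; simp
lemma st1 : st 1 = 0 := by unfold st; rw [if_neg (by decide)]
lemma st2 : st 2 = 1 := by unfold st; rw [if_pos (by decide)]; simp
lemma st3 : st 3 = 0 := by unfold st; rw [if_neg (by decide)]
lemma st4 : st 4 = 2 := by unfold st; rw [if_pos (by decide)]; simp [catalan_two]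

lemma st_bound {k : ℕ} (hk : k ≤ 4) : |st k| ≤ 2 := by
  interval_cases k
  · rw [st0]; norm_num
  · rw [st1]; norm_num
  · rw [st2]; norm_num
  · rw [st3]; norm_num
  · rw [st4]; norm_num

section

variable {p : ℕ} [hp : Fact p.Prime]

open Classical in
/-- the normalised power -/
noncomputable def gk (k : ℕ) (a : ZMod p) : ℝ := if a = 0 then 0 else (rk p a 1 / Real.sqrt p) ^ k

lemma sum_gk (k : ℕ) : ∑ a : ZMod p, gk k a = ((∑ a : ZMod p, rk p a 1 ^ k) - (-1) ^ k) / Real.sqrt p ^ k := by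
  have h1 : ∀ a ∈ (univ : Finset (ZMod p)).erase 0, gk k a = rk p a 1 ^ k / Real.sqrt p ^ k := by
    intro a ha
    unfold gk
    rw [if_neg (mem_erase.1 ha).1, div_pow]
  rw [← add_sum_erase _ _ (mem_univ (0 : ZMod p)), sum_congr rfl h1, ← sum_div]
  rw [← add_sum_erase (univ : Finset (ZMod p)) (fun a => rk p a 1 ^ k) (mem_univ (0 : ZMod p)), rk_zero_one]
  have h2 : gk k (0 : ZMod p) = 0 := by unfold gk; rw [if_pos rfl]
  rw [h2]
  ring

lemma mean_gk {k : ℕ} (hk : k ≤ 4) : |(∑ a : ZMod p, gk k a) / p - st k| ≤ 10 / Real.sqrt p := by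
  have hp0 : (0 : ℝ) < p := by exact_mod_cast hp.out.pos
  have hp2 : (2 : ℝ) ≤ p := by exact_mod_cast hp.out.two_le
  obtain ⟨s, hs⟩ : ∃ s, s = Real.sqrt p := ⟨_, rfl⟩
  have hs1 : 1 ≤ s := by rw [hs, Real.one_le_sqrt]; linarith
  have hs0 : 0 < s := by linarith
  have hps : (p : ℝ) = s ^ 2 := by rw [hs, Real.sq_sqrt hp0.le]
  rw [sum_gk, ← hs]
  interval_cases k
  · rw [st0]
    have h1 : ∑ a : ZMod p, rk p a 1 ^ 0 = p := by simp
    rw [h1, hps]
    have h2 : (s ^ 2 - (-1) ^ 0) / s ^ 0 / s ^ 2 - 1 = - (1 / s ^ 2) := by field_simp; ring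
    rw [h2, abs_neg, abs_of_pos (by positivity), div_le_div_iff₀ (by positivity) hs0]
    nlinarith
  · rw [st1]
    have h1 : ∑ a : ZMod p, rk p a 1 ^ 1 = 0 := by simpa using m1 (p := p)
    rw [h1, hps]
    have h2 : (0 - (-1) ^ 1) / s ^ 1 / s ^ 2 - 0 = 1 / s ^ 3 := by field_simp; ring
    rw [h2, abs_of_pos (by positivity), div_le_div_iff₀ (by positivity) hs0]
    nlinarith [pow_pos hs0 2, pow_pos hs0 3]
  · rw [st2, m2, hps]
    have h2 : (s ^ 2 * (s ^ 2 - 1) - (-1) ^ 2) / s ^ 2 / s ^ 2 - 1 = - ((s ^ 2 + 1) / s ^ 4) := by field_simp; ring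
    rw [h2, abs_neg, abs_of_pos (by positivity), div_le_div_iff₀ (by positivity) hs0]
    have h3 : s ≤ s ^ 3 := by nlinarith [mul_pos hs0 hs0]
    have h4 : s ^ 3 ≤ s ^ 4 := by nlinarith [pow_pos hs0 3]
    nlinarith
  · rw [st3, sub_zero, hps]
    obtain ⟨S, hS⟩ : ∃ S, S = ∑ a : ZMod p, rk p a 1 ^ 3 := ⟨_, rfl⟩
    have h1 : |S| ≤ 2 * (s ^ 2) ^ 2 := by rw [hS, ← hps]; exact m3
    rw [← hS]
    have h2 : (S - (-1) ^ 3) / s ^ 3 / s ^ 2 = (S + 1) / s ^ 5 := by field_simp; ring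
    rw [h2, abs_div, abs_of_pos (show (0 : ℝ) < s ^ 5 by positivity), div_le_div_iff₀ (by positivity) hs0]
    have h3 : |S + 1| ≤ 2 * (s ^ 2) ^ 2 + 1 := (abs_add_le _ _).trans (by rw [abs_one]; linarith)
    have h4 : 1 ≤ s ^ 4 := one_le_pow₀ hs1
    calc |S + 1| * s ≤ (2 * (s ^ 2) ^ 2 + 1) * s := mul_le_mul_of_nonneg_right h3 hs0.le
      _ ≤ 10 * s ^ 5 := by nlinarith [pow_pos hs0 5]
  · rw [st4, hps]
    obtain ⟨S, hS⟩ : ∃ S, S = ∑ a : ZMod p, rk p a 1 ^ 4 := ⟨_, rfl⟩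
    have h1 : S ≤ 2 * (s ^ 2) ^ 3 := by rw [hS, ← hps]; exact m4
    have h1' : 2 * (s ^ 2) ^ 3 - 7 * (s ^ 2) ^ 2 ≤ S := by rw [hS, ← hps]; exact m4_lower
    rw [← hS]
    have h2 : (S - (-1) ^ 4) / s ^ 4 / s ^ 2 - 2 = (S - 2 * s ^ 6 - 1) / s ^ 6 := by field_simp; ring
    rw [h2, abs_div, abs_of_pos (show (0 : ℝ) < s ^ 6 by positivity), div_le_div_iff₀ (by positivity) hs0]
    have h4 : 1 ≤ s ^ 4 := one_le_pow₀ hs1
    have h3 : |S - 2 * s ^ 6 - 1| ≤ 8 * s ^ 4 := by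
      rw [abs_le]
      constructor <;> nlinarith
    calc |S - 2 * s ^ 6 - 1| * s ≤ (8 * s ^ 4) * s := mul_le_mul_of_nonneg_right h3 hs0.le
      _ ≤ 10 * s ^ 6 := by nlinarith [pow_pos hs0 5]

lemma mean_gk_bound {k : ℕ} (hk : k ≤ 4) : |(∑ a : ZMod p, gk k a) / p| ≤ 12 := by
  have h1 := mean_gk (p := p) hk
  have h2 := st_bound hk
  have h3 : 10 / Real.sqrt p ≤ 10 := by
    rw [div_le_iff₀ (Real.sqrt_pos.2 (by exact_mod_cast hp.out.pos))]
    have : (1 : ℝ) ≤ Real.sqrt p := by rw [Real.one_le_sqrt]; exact_mod_cast hp.out.one_lt.le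
    linarith
  have h4 := abs_add_le ((∑ a : ZMod p, gk k a) / p - st k) (st k)
  rw [sub_add_cancel] at h4
  linarith

end

open Classical in
/-- the centered product of the powers of the normalised Kloosterman sums -/
noncomputable def jt {s : ℕ} (k : Fin s → ℕ) (p : ℕ) (m : Fin s → ℕ) : ℝ :=
  if ∃ j, p ∣ m j then 0 else ∏ j, (kls p (m j) / Real.sqrt p) ^ k j - ∏ j, st (k j)

open Classical in
/-- the indicator function of the primes dividing one of the integers -/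
noncomputable def dv {s : ℕ} (p : ℕ) (m : Fin s → ℕ) : ℝ := if ∃ j, p ∣ m j then 1 else 0

lemma dvd_mod {s : ℕ} (p : ℕ) (m : Fin s → ℕ) : (∃ j, p ∣ m j % p) ↔ ∃ j, p ∣ m j :=
  exists_congr fun _ => Nat.dvd_mod_iff (dvd_refl p)

lemma jt_mod {s : ℕ} (k : Fin s → ℕ) (p : ℕ) (m : Fin s → ℕ) : jt k p m = jt k p (fun i => m i % p) := by
  unfold jt
  simp only [kls_mod, dvd_mod]

lemma dv_mod {s : ℕ} (p : ℕ) (m : Fin s → ℕ) : dv p m = dv p (fun i => m i % p) := by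
  unfold dv
  simp only [dvd_mod]

section

variable {p : ℕ} [hp : Fact p.Prime] {s : ℕ}

lemma sum_prod_gk (k : Fin s → ℕ) : (∑ v : Fin s → ZMod p, ∏ j, gk (k j) (v j)) / (p : ℝ) ^ s =
    ∏ j, ((∑ a : ZMod p, gk (k j) a) / p) := by
  classical
  have h1 := Finset.prod_univ_sum (fun _ : Fin s => (univ : Finset (ZMod p))) (fun j a => gk (k j) a)
  rw [Fintype.piFinset_univ] at h1
  rw [← h1, prod_div_distrib, prod_const, card_univ, Fintype.card_fin]

lemma prod_gk_zero (k : Fin s → ℕ) {v : Fin s → ZMod p} (h : ∃ j, v j = 0) : ∏ j, gk (k j) (v j) = 0 := by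
  obtain ⟨j, hj⟩ := h
  refine prod_eq_zero (mem_univ j) ?_
  unfold gk
  rw [if_pos hj]

lemma prod_gk_ne (k : Fin s → ℕ) {v : Fin s → ZMod p} (h : ¬ ∃ j, v j = 0) : ∏ j, gk (k j) (v j) = ∏ j, (rk p (v j) 1 / Real.sqrt p) ^ k j := by
  push Not at h
  refine prod_congr rfl fun j _ => ?_
  unfold gk
  rw [if_neg (h j)]

lemma jt_eq (k : Fin s → ℕ) (n : Fin s → ℕ) : jt k p n = (fun v : Fin s → ZMod p => ∏ j, gk (k j) (v j) - (∏ j, st (k j)) * ∏ j, gk 0 (v j))
    (fun l => ((n l : ℕ) : ZMod p)) := by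
  have hd : (∃ j, p ∣ n j) ↔ ∃ j, ((n j : ℕ) : ZMod p) = 0 := exists_congr fun j => (ZMod.natCast_eq_zero_iff _ _).symm
  beta_reduce
  unfold jt
  by_cases h : ∃ j, p ∣ n j
  · rw [if_pos h, prod_gk_zero k (hd.1 h), prod_gk_zero (fun _ => 0) (hd.1 h)]
    ring
  · rw [if_neg h, prod_gk_ne k (fun h' => h (hd.2 h')), prod_gk_ne (fun _ => 0) (fun h' => h (hd.2 h'))]
    simp only [pow_zero, prod_const_one, mul_one, kls_eq]

lemma dv_eq (n : Fin s → ℕ) : dv p n = (fun v : Fin s → ZMod p => 1 - ∏ j, gk 0 (v j))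
    (fun l => ((n l : ℕ) : ZMod p)) := by
  have hd : (∃ j, p ∣ n j) ↔ ∃ j, ((n j : ℕ) : ZMod p) = 0 := exists_congr fun j => (ZMod.natCast_eq_zero_iff _ _).symm
  beta_reduce
  unfold dv
  by_cases h : ∃ j, p ∣ n j
  · rw [if_pos h, prod_gk_zero (fun _ => 0) (hd.1 h)]
    ring
  · rw [if_neg h, prod_gk_ne (fun _ => 0) (fun h' => h (hd.2 h'))]
    simp only [pow_zero, prod_const_one, sub_self]

lemma avg_jt {k : Fin s → ℕ} (hk : ∀ j, k j ≤ 4) : |avg p (jt k p)| ≤ (s * 12 ^ s * 10 * (1 + 2 ^ s)) / Real.sqrt p := by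
  have hp0 : (0 : ℝ) < p := by exact_mod_cast hp.out.pos
  have hs0 : 0 < Real.sqrt p := Real.sqrt_pos.2 hp0
  have h1 : jt k p = fun n => (fun v : Fin s → ZMod p => ∏ j, gk (k j) (v j) - (∏ j, st (k j)) * ∏ j, gk 0 (v j))
    (fun l => ((n l : ℕ) : ZMod p)) := funext fun n => jt_eq k n
  rw [h1, avg_zmod (fun v : Fin s → ZMod p => ∏ j, gk (k j) (v j) - (∏ j, st (k j)) * ∏ j, gk 0 (v j)), Fintype.card_fin,
    sum_sub_distrib, ← mul_sum, sub_div, mul_div_assoc, sum_prod_gk k, sum_prod_gk (fun _ => 0)]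
  have e : ∏ j, ((∑ a : ZMod p, gk (k j) a) / p) - (∏ j, st (k j)) * ∏ j : Fin s, ((∑ a : ZMod p, gk 0 a) / p) =
      (∏ j, ((∑ a : ZMod p, gk (k j) a) / p) - ∏ j, st (k j)) - (∏ j, st (k j)) * (∏ j : Fin s, ((∑ a : ZMod p, gk 0 a) / p) - ∏ j : Fin s, st 0) := by
    have : ∏ j : Fin s, st 0 = 1 := by rw [st0]; simp
    rw [this]
    ring
  rw [e]
  have h2 : |∏ j, ((∑ a : ZMod p, gk (k j) a) / p) - ∏ j, st (k j)| ≤ (univ : Finset (Fin s)).card * 12 ^ (univ : Finset (Fin s)).card * (10 / Real.sqrt p) :=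
    prod_diff univ _ _ (by norm_num) (by positivity) (fun j _ => mean_gk_bound (hk j)) (fun j _ => (st_bound (hk j)).trans (by norm_num))
      (fun j _ => mean_gk (hk j))
  have h3 : |∏ j : Fin s, ((∑ a : ZMod p, gk 0 a) / p) - ∏ j : Fin s, st 0| ≤ (univ : Finset (Fin s)).card * 12 ^ (univ : Finset (Fin s)).card * (10 / Real.sqrt p) :=
    prod_diff univ _ _ (by norm_num) (by positivity) (fun j _ => mean_gk_bound (by norm_num)) (fun j _ => (st_bound (by norm_num)).trans (by norm_num))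
      (fun j _ => mean_gk (by norm_num))
  rw [card_univ, Fintype.card_fin] at h2 h3
  have h4 : |∏ j, st (k j)| ≤ 2 ^ s := by
    have := abs_prod_le_pow (univ : Finset (Fin s)) (x := fun j => st (k j)) (fun j _ => st_bound (hk j))
    rwa [card_univ, Fintype.card_fin] at this
  refine (abs_sub _ _).trans ?_
  rw [abs_mul]
  have h5 := mul_le_mul h4 h3 (abs_nonneg _) (by positivity)
  calc _ ≤ (s * 12 ^ s * (10 / Real.sqrt p)) + 2 ^ s * (s * 12 ^ s * (10 / Real.sqrt p)) := add_le_add h2 h5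
    _ = _ := by ring

lemma avg_dv : |avg p (dv (s := s) p)| ≤ (s * 12 ^ s * 10) / Real.sqrt p := by
  have hp0 : (0 : ℝ) < p := by exact_mod_cast hp.out.pos
  have h1 : dv (s := s) p = fun n => (fun v : Fin s → ZMod p => 1 - ∏ j, gk 0 (v j))
    (fun l => ((n l : ℕ) : ZMod p)) := funext fun n => dv_eq n
  rw [h1, avg_zmod (fun v : Fin s → ZMod p => 1 - ∏ j, gk 0 (v j)), Fintype.card_fin,
    sum_sub_distrib, sub_div, sum_prod_gk (fun _ => 0)]
  have e : (∑ v : Fin s → ZMod p, (1 : ℝ)) / (p : ℝ) ^ s = ∏ j : Fin s, st 0 := by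
    have : ∏ j : Fin s, st 0 = 1 := by rw [st0]; simp
    rw [this, sum_const, card_univ, Fintype.card_pi, prod_const, ZMod.card, card_univ, Fintype.card_fin, nsmul_eq_mul]
    push_cast
    field_simp
  rw [e, abs_sub_comm]
  have h3 : |∏ j : Fin s, ((∑ a : ZMod p, gk 0 a) / p) - ∏ j : Fin s, st 0| ≤ (univ : Finset (Fin s)).card * 12 ^ (univ : Finset (Fin s)).card * (10 / Real.sqrt p) :=
    prod_diff univ _ _ (by norm_num) (by positivity) (fun j _ => mean_gk_bound (by norm_num)) (fun j _ => (st_bound (by norm_num)).trans (by norm_num))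
      (fun j _ => mean_gk (by norm_num))
  rw [card_univ, Fintype.card_fin] at h3
  refine h3.trans (le_of_eq (by ring))

lemma jt_bound {k : Fin s → ℕ} (hk : ∀ j, k j ≤ 4) (n : Fin s → ℕ) : |jt k p n| ≤ 16 ^ s + 2 ^ s := by
  have hp0 : (0 : ℝ) < p := by exact_mod_cast hp.out.pos
  have hs0 : 0 < Real.sqrt p := Real.sqrt_pos.2 hp0
  unfold jt
  split_ifs with h
  · rw [abs_zero]; positivity
  · push Not at h
    refine (abs_sub _ _).trans (add_le_add ?_ ?_)
    · have h1 : ∀ j ∈ (univ : Finset (Fin s)), |(kls p (n j) / Real.sqrt p) ^ k j| ≤ 16 := by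
        intro j _
        rw [abs_pow, abs_div, abs_of_pos hs0, kls_eq]
        have h2 : |rk p ((n j : ℕ) : ZMod p) 1| / Real.sqrt p ≤ 2 := by
          rw [div_le_iff₀ hs0]
          exact rk_bound fun h0 => h j ((ZMod.natCast_eq_zero_iff _ _).1 h0)
        calc (|rk p ((n j : ℕ) : ZMod p) 1| / Real.sqrt p) ^ k j ≤ 2 ^ k j := pow_le_pow_left₀ (by positivity) h2 _
          _ ≤ 2 ^ 4 := pow_le_pow_right₀ (by norm_num) (hk j)
          _ = 16 := by norm_num
      have := abs_prod_le_pow (univ : Finset (Fin s)) h1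
      rwa [card_univ, Fintype.card_fin] at this
    · have := abs_prod_le_pow (univ : Finset (Fin s)) (x := fun j => st (k j)) (fun j _ => st_bound (hk j))
      rwa [card_univ, Fintype.card_fin] at this

end

end Pool.Agent.Q93.KM
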