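import Pool.Agent.TH375.KL.Moments

/-! The lower bound for the fourth moment of Kloosterman sums and the moments over the nonzero residues. -/

set_option autoImplicit false

namespace Pool.Agent.Q93.KM

open Finset Pool.Agent.Helper916 ComplexConjugate
open Pool.Agent.TH375.KL

variable {p : ℕ} [hp : Fact p.Prime]

lemma cardU : (((univ : Finset (ZMod p)).erase 0).card : ℝ) = (p : ℝ) - 1 := by
  rw [card_erase_of_mem (mem_univ _), card_univ, ZMod.card, Nat.cast_sub hp.out.one_le]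
  simp

/-- the number of solutions -/
theorem count_lower :
    ((p : ℝ) - 1) * (3 * (p : ℝ) - 7) ≤
    ((∑ π ∈ ((univ : Finset (ZMod p)).erase 0) ×ˢ (univ.erase (0 : ZMod p)),
      (((univ.erase (0 : ZMod p)) ×ˢ (univ.erase (0 : ZMod p))).filter
        (fun π' => π.1 + π.2 = π'.1 + π'.2 ∧ π.1⁻¹ + π.2⁻¹ = π'.1⁻¹ + π'.2⁻¹)).card : ℕ) : ℝ) := by
  set U : Finset (ZMod p) := univ.erase (0 : ZMod p) with hU
  have hUc : (U.card : ℝ) = (p : ℝ) - 1 := cardU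
  push_cast
  have h1 : ∀ π ∈ U ×ˢ U, 2 + (if π.1 = π.2 then (-2 : ℝ) else 0) + (if π.1 = -π.2 then (U.card : ℝ) - 2 else 0) ≤ (((U ×ˢ U).filter
        (fun π' => π.1 + π.2 = π'.1 + π'.2 ∧ π.1⁻¹ + π.2⁻¹ = π'.1⁻¹ + π'.2⁻¹)).card : ℝ) := by
    intro π hπ
    rw [mem_product] at hπ
    have hx : π.1 ≠ 0 := (mem_erase.mp hπ.1).1
    have hy : π.2 ≠ 0 := (mem_erase.mp hπ.2).1
    by_cases hs : π.1 = -π.2
    · rw [if_pos hs]
      have hsub : U.image (fun x => (x, -x)) ⊆ ((U ×ˢ U).filter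
        (fun π' => π.1 + π.2 = π'.1 + π'.2 ∧ π.1⁻¹ + π.2⁻¹ = π'.1⁻¹ + π'.2⁻¹)) := by
        intro π' hπ'
        rw [mem_image] at hπ'
        obtain ⟨x, hx, rfl⟩ := hπ'
        rw [mem_filter, mem_product]
        refine ⟨⟨hx, ?_⟩, ?_, ?_⟩
        · rw [hU, mem_erase] at hx ⊢
          exact ⟨neg_ne_zero.2 hx.1, mem_univ _⟩
        · rw [hs]
          ring
        · rw [hs, inv_neg]
          simp only [inv_neg]
          ring
      have h2 := card_le_card hsub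
      rw [card_image_of_injective _ (fun x y h => (Prod.mk.inj h).1)] at h2
      have h3 : (U.card : ℝ) ≤ (((U ×ˢ U).filter
        (fun π' => π.1 + π.2 = π'.1 + π'.2 ∧ π.1⁻¹ + π.2⁻¹ = π'.1⁻¹ + π'.2⁻¹)).card : ℝ) := by exact_mod_cast h2
      split_ifs <;> linarith
    · rw [if_neg hs]
      by_cases he : π.1 = π.2
      · rw [if_pos he]
        have : (0 : ℝ) ≤ (((U ×ˢ U).filter
          (fun π' => π.1 + π.2 = π'.1 + π'.2 ∧ π.1⁻¹ + π.2⁻¹ = π'.1⁻¹ + π'.2⁻¹)).card : ℝ) := Nat.cast_nonneg _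
        linarith
      · rw [if_neg he]
        have hsub : {(π.1, π.2), (π.2, π.1)} ⊆ ((U ×ˢ U).filter
          (fun π' => π.1 + π.2 = π'.1 + π'.2 ∧ π.1⁻¹ + π.2⁻¹ = π'.1⁻¹ + π'.2⁻¹)) := by
          intro π' hπ'
          rw [mem_insert, mem_singleton] at hπ'
          rw [mem_filter, mem_product]
          rcases hπ' with rfl | rfl
          · exact ⟨⟨hπ.1, hπ.2⟩, rfl, rfl⟩
          · exact ⟨⟨hπ.2, hπ.1⟩, add_comm _ _, add_comm _ _⟩
        have h2 := card_le_card hsub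
        rw [card_pair (fun h => he (Prod.mk.inj h).1)] at h2
        have h3 : ((2 : ℕ) : ℝ) ≤ (((U ×ˢ U).filter
          (fun π' => π.1 + π.2 = π'.1 + π'.2 ∧ π.1⁻¹ + π.2⁻¹ = π'.1⁻¹ + π'.2⁻¹)).card : ℝ) := by exact_mod_cast h2
        push_cast at h3
        linarith
  refine le_trans ?_ (sum_le_sum h1)
  rw [sum_add_distrib, sum_add_distrib, sum_const, card_product, nsmul_eq_mul]
  have h2 : ∑ π ∈ U ×ˢ U, (if π.1 = π.2 then (-2 : ℝ) else 0) = -2 * U.card := by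
    rw [sum_product]
    have : ∀ x ∈ U, ∑ y ∈ U, (if x = y then (-2 : ℝ) else 0) = -2 := by
      intro x hx
      rw [sum_ite_eq, if_pos hx]
    rw [sum_congr rfl this, sum_const, nsmul_eq_mul]
    ring
  have h3 : ∑ π ∈ U ×ˢ U, (if π.1 = -π.2 then (U.card : ℝ) - 2 else 0) = (U.card - 2) * U.card := by
    rw [sum_product]
    have : ∀ x ∈ U, ∑ y ∈ U, (if x = -y then (U.card : ℝ) - 2 else 0) = U.card - 2 := by
      intro x hx
      have h4 : ∀ y ∈ U, (if x = -y then (U.card : ℝ) - 2 else 0) = if -x = y then (U.card : ℝ) - 2 else 0 := by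
        intro y _
        have : x = -y ↔ -x = y := by
          constructor
          · intro h; rw [h, neg_neg]
          · intro h; rw [← h, neg_neg]
        simp only [this]
      rw [sum_congr rfl h4, sum_ite_eq, if_pos]
      rw [hU, mem_erase] at hx ⊢
      exact ⟨neg_ne_zero.2 hx.1, mem_univ _⟩
    rw [sum_congr rfl this, sum_const, nsmul_eq_mul]
    ring
  rw [h2, h3]
  push_cast
  rw [hUc]
  apply le_of_eq
  ring

/-- the fourth moment over all pairs -/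
theorem fourth_eq : ∑ b : ZMod p, ∑ c : ZMod p, rk p b c ^ 4
      = (p : ℝ) ^ 2 * ((∑ π ∈ ((univ : Finset (ZMod p)).erase 0) ×ˢ (univ.erase (0 : ZMod p)),
      (((univ.erase (0 : ZMod p)) ×ˢ (univ.erase (0 : ZMod p))).filter
        (fun π' => π.1 + π.2 = π'.1 + π'.2 ∧ π.1⁻¹ + π.2⁻¹ = π'.1⁻¹ + π'.2⁻¹)).card : ℕ) : ℝ) := by
  set U : Finset (ZMod p) := univ.erase (0 : ZMod p) with hU
  have hψ := prim (p := p)
  have h1 : ((∑ b : ZMod p, ∑ c : ZMod p, rk p b c ^ 4 : ℝ) : ℂ)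
      = (p : ℂ) ^ 2 * ((∑ π ∈ U ×ˢ U, ((U ×ˢ U).filter
        (fun π' => π.1 + π.2 = π'.1 + π'.2 ∧ π.1⁻¹ + π.2⁻¹ = π'.1⁻¹ + π'.2⁻¹)).card : ℕ) : ℂ) := by
    push_cast
    have e1 : ∀ b c : ZMod p, ((rk p b c : ℂ)) ^ 4 = ∑ π ∈ U ×ˢ U, ∑ π' ∈ U ×ˢ U,
        (ZMod.stdAddChar (N := p)) (b * ((π.1 + π.2) - (π'.1 + π'.2))) * (ZMod.stdAddChar (N := p)) (c * ((π.1⁻¹ + π.2⁻¹) - (π'.1⁻¹ + π'.2⁻¹))) := by
      intro b c
      have e2 : ((rk p b c : ℂ)) ^ 4 = (Kl (ZMod.stdAddChar (N := p)) b c) ^ 2 * (starRingEnd ℂ) ((Kl (ZMod.stdAddChar (N := p)) b c) ^ 2) := by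
        have e3 : Kl (ZMod.stdAddChar (N := p)) b c = (rk p b c : ℂ) := (rk_eq b c).symm
        rw [e3, map_pow, Complex.conj_ofReal]
        ring
      rw [e2, Kl_sq, map_sum, Finset.sum_mul_sum]
      refine Finset.sum_congr rfl fun π _ => Finset.sum_congr rfl fun π' _ => ?_
      rw [← AddChar.map_neg_eq_conj, ← AddChar.map_add_eq_mul, ← AddChar.map_add_eq_mul]
      congr 1
      ring
    have e3 : ∑ b : ZMod p, ∑ c : ZMod p, ((rk p b c : ℂ)) ^ 4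
        = ∑ π ∈ U ×ˢ U, ∑ π' ∈ U ×ˢ U, (∑ b : ZMod p, (ZMod.stdAddChar (N := p)) (b * ((π.1 + π.2) - (π'.1 + π'.2)))) *
          (∑ c : ZMod p, (ZMod.stdAddChar (N := p)) (c * ((π.1⁻¹ + π.2⁻¹) - (π'.1⁻¹ + π'.2⁻¹)))) := by
      rw [Finset.sum_congr rfl fun b _ => Finset.sum_congr rfl fun c _ => e1 b c]
      rw [Finset.sum_congr rfl fun b _ => Finset.sum_comm]
      rw [Finset.sum_comm]
      refine Finset.sum_congr rfl fun π _ => ?_
      rw [Finset.sum_congr rfl fun b _ => Finset.sum_comm]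
      rw [Finset.sum_comm]
      refine Finset.sum_congr rfl fun π' _ => ?_
      rw [Finset.sum_mul_sum]
    rw [e3, Finset.mul_sum]
    refine Finset.sum_congr rfl fun π _ => ?_
    simp_rw [AddChar.sum_mulShift _ hψ, sub_eq_zero]
    rw [Finset.card_filter]
    push_cast
    rw [Finset.mul_sum]
    refine Finset.sum_congr rfl fun π' _ => ?_
    by_cases c1 : π.1 + π.2 = π'.1 + π'.2
    · by_cases c2 : π.1⁻¹ + π.2⁻¹ = π'.1⁻¹ + π'.2⁻¹
      · simp [c1, c2, sq]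
      · simp [c1, c2]
    · simp [c1]
  exact_mod_cast h1

theorem m4_lower : 2 * (p : ℝ) ^ 3 - 7 * (p : ℝ) ^ 2 ≤ ∑ a : ZMod p, rk p a 1 ^ 4 := by
  have h1 := moment_eq (p := p) 4
  have h2 := count_lower (p := p)
  have hp1 := p_gt (p := p)
  have hp0 : 0 < (p : ℝ) - 1 := by linarith
  refine le_of_mul_le_mul_left (a := (p : ℝ) - 1) ?_ hp0
  rw [h1, fourth_eq]
  have h3 := mul_le_mul_of_nonneg_left h2 (show (0 : ℝ) ≤ (p : ℝ) ^ 2 by positivity)
  have h4 : (p : ℝ) ^ 2 * (((p : ℝ) - 1) * (3 * (p : ℝ) - 7)) - ((p : ℝ) - 1) ^ 4 - ((p : ℝ) - 1) * (-1) ^ 4 -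
      ((p : ℝ) - 1) * (2 * (p : ℝ) ^ 3 - 7 * (p : ℝ) ^ 2) = ((p : ℝ) - 1) * (3 * p * ((p : ℝ) - 1)) := by ring
  have h5 : 0 ≤ ((p : ℝ) - 1) * (3 * p * ((p : ℝ) - 1)) := by positivity
  linarith

/-- the value at zero -/
lemma rk_zero_one : rk p 0 1 = -1 := by
  have h1 : rk p 0 1 = rk p 1 0 := by
    unfold rk Pool.Agent.TH375.KL.KK Kl
    congr 1
    refine Finset.sum_bij (fun z _ => z⁻¹) ?_ ?_ ?_ ?_
    · intro z hz
      rw [mem_erase] at hz ⊢
      exact ⟨inv_ne_zero hz.1, mem_univ _⟩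
    · intro x _ y _ hxy
      exact inv_injective hxy
    · intro y hy
      refine ⟨y⁻¹, ?_, inv_inv y⟩
      rw [mem_erase] at hy ⊢
      exact ⟨inv_ne_zero hy.1, mem_univ _⟩
    · intro z _
      congr 1
      rw [inv_inv]
      ring
  rw [h1]
  unfold rk
  rw [KK_zero_right one_ne_zero]
  simp

end Pool.Agent.Q93.KM
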