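import Pool.Agent.Q93.KM.Prod
import Pool.Agent.Q93.KM.Cen2

/-! The law for products of functions of disjoint sets of variables. -/

set_option autoImplicit false

namespace Pool.Agent.Q93.KM

open Finset Pool.Agent.Q235.FD

theorem joint_law {ι : Type} [Fintype ι] [DecidableEq ι] [Nonempty ι] {κ : ι → Type} [∀ j, Fintype (κ j)] [∀ j, Nonempty (κ j)]
    {T : ι → Type} [∀ j, Fintype (T j)] (f : ∀ j, T j → ℕ → (κ j → ℕ) → ℝ) (c : ∀ j, T j → ℝ) (t₀ : ∀ j, T j)
    (hc : ∀ j, c j (t₀ j) = 1) (hper : ∀ j t p n, p.Prime → f j t p n = f j t p (fun i => n i % p)) {M : ℝ} (hM : 1 ≤ M)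
    (hbd : ∀ j t p n, p.Prime → |f j t p n| ≤ M) (hcb : ∀ j t, |c j t| ≤ M)
    (hav : ∀ j t p, p.Prime → |avg p (f j t p) - c j t| ≤ M / Real.sqrt p)
    {b : ℕ} (hb : 2 ≤ b) {δ : ℝ} (hδ : 0 < δ) (A B : ℕ) :
    ForAlmostAll (Σ j, κ j) b A (fun (θ : Sets B) x m => ∀ P ∈ θ.S x, ∀ t : ∀ j, T j,
      |∑ p ∈ P, (∏ j, f j (t j) p (fun i => m ⟨j, i⟩) - (∏ j, c j (t j)) * ∏ j, f j (t₀ j) p (fun i => m ⟨j, i⟩))| ≤
        Real.sqrt (max 1 P.card) * (x : ℝ) ^ δ ∧
      |∑ p ∈ P, (1 - ∏ j, f j (t₀ j) p (fun i => m ⟨j, i⟩))| ≤ Real.sqrt (max 1 P.card) * (x : ℝ) ^ δ) := by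
  classical
  obtain ⟨q, hq⟩ : ∃ q : ℕ, q = Fintype.card ι := ⟨_, rfl⟩
  have hM0 : 0 < M := by linarith
  obtain ⟨u, hu⟩ : ∃ u : ℕ, u = Fintype.card (∀ j, T j) := ⟨_, rfl⟩
  have havb : ∀ j t p, p.Prime → |avg p (f j t p)| ≤ M := by
    intro j t p hp
    refine (abs_avg_le _).trans ?_
    have : avg p (fun n => |f j t p n|) ≤ avg (L := κ j) p (fun _ => M) := avg_mono fun n => hbd j t p n hp
    rwa [avg_const hp.one_lt.le] at this
  have key : ∀ (t : ∀ j, T j) (p : ℕ), p.Prime → |∏ j, avg p (f j (t j) p) - ∏ j, c j (t j)| ≤ q * M ^ q * (M / Real.sqrt p) := by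
    intro t p hp
    have := prod_diff (univ : Finset ι) (fun j => avg p (f j (t j) p)) (fun j => c j (t j)) hM (by positivity : 0 ≤ M / Real.sqrt p)
      (fun j _ => havb j _ p hp) (fun j _ => hcb j _) (fun j _ => hav j _ p hp)
    rwa [card_univ, ← hq] at this
  have hcp : ∀ t : ∀ j, T j, |∏ j, c j (t j)| ≤ M ^ q := by
    intro t
    have := abs_prod_le_pow (univ : Finset ι) (x := fun j => c j (t j)) (fun j _ => hcb j _)
    rwa [card_univ, ← hq] at this
  have hfp : ∀ (t : ∀ j, T j) (p : ℕ) (n : (Σ j, κ j) → ℕ), p.Prime → |∏ j, f j (t j) p (fun i => n ⟨j, i⟩)| ≤ M ^ q := by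
    intro t p n hp
    have := abs_prod_le_pow (univ : Finset ι) (x := fun j => f j (t j) p (fun i => n ⟨j, i⟩)) (fun j _ => hbd j _ p _ hp)
    rwa [card_univ, ← hq] at this
  have hMq : 1 ≤ M ^ q := one_le_pow₀ hM
  obtain ⟨C, hC⟩ : ∃ C : ℝ, C = q * M ^ q * M * (1 + M ^ q) + M ^ q * (1 + M ^ q) + 1 := ⟨_, rfl⟩
  have hC1 : 1 ≤ C := by
    rw [hC]
    have : 0 ≤ q * M ^ q * M * (1 + M ^ q) + M ^ q * (1 + M ^ q) := by positivity
    linarith
  have hN : Nonempty (Σ j, κ j) := by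
    obtain ⟨j⟩ := (inferInstance : Nonempty ι)
    obtain ⟨i⟩ := (inferInstance : Nonempty (κ j))
    exact ⟨⟨j, i⟩⟩
  have h1 := centered2 (L := Σ j, κ j) hb hδ (A + 1) B u (fun _ => (univ : Finset (∀ j, T j))) (by
    intro x hx
    rw [card_univ, ← hu]
    exact Nat.lt_two_pow_self.le.trans (Nat.pow_le_pow_left hx _))
    (fun t p m => ∏ j, f j (t j) p (fun i => m ⟨j, i⟩) - (∏ j, c j (t j)) * ∏ j, f j (t₀ j) p (fun i => m ⟨j, i⟩))
    (by
      intro t p n hp
      beta_reduce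
      congr 1
      · exact prod_congr rfl fun j _ => hper _ _ _ _ hp
      · congr 1
        exact prod_congr rfl fun j _ => hper _ _ _ _ hp)
    (C := C) hC1 (by
      intro t p n hp
      refine (abs_sub _ _).trans ?_
      rw [abs_mul]
      have g1 := hfp t p n hp
      have g2 := mul_le_mul (hcp t) (hfp t₀ p n hp) (abs_nonneg _) (by positivity)
      have g3 : 0 ≤ q * M ^ q * M * (1 + M ^ q) := by positivity
      rw [hC]
      linarith) (by
      intro t p hp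
      rw [avg_sub, avg_mul, avg_prod p (fun j => f j (t j) p), avg_prod p (fun j => f j (t₀ j) p)]
      have e : ∏ j, avg p (f j (t j) p) - (∏ j, c j (t j)) * ∏ j, avg p (f j (t₀ j) p) =
        (∏ j, avg p (f j (t j) p) - ∏ j, c j (t j)) - (∏ j, c j (t j)) * (∏ j, avg p (f j (t₀ j) p) - ∏ j, c j (t₀ j)) := by
        have : ∏ j, c j (t₀ j) = 1 := prod_eq_one fun j _ => hc j
        rw [this]
        ring
      rw [e]
      refine (abs_sub _ _).trans ?_
      rw [abs_mul]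
      have g1 := key t p hp
      have g2 := mul_le_mul (hcp t) (key t₀ p hp) (abs_nonneg _) (by positivity)
      have g4 : 0 ≤ (M ^ q * (1 + M ^ q) + 1) / Real.sqrt p := by positivity
      calc _ ≤ q * M ^ q * (M / Real.sqrt p) + M ^ q * (q * M ^ q * (M / Real.sqrt p)) := add_le_add g1 g2
        _ ≤ q * M ^ q * (M / Real.sqrt p) + M ^ q * (q * M ^ q * (M / Real.sqrt p)) + (M ^ q * (1 + M ^ q) + 1) / Real.sqrt p := by linarith
        _ = C / Real.sqrt p := by rw [hC]; ring)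
  have h2 := centered2 (L := Σ j, κ j) hb hδ (A + 1) B 1 (fun _ => (univ : Finset Unit)) (by
    intro x hx
    rw [card_univ, Fintype.card_unit, pow_one]
    omega)
    (fun _ p m => 1 - ∏ j, f j (t₀ j) p (fun i => m ⟨j, i⟩))
    (by
      intro _ p n hp
      beta_reduce
      congr 1
      exact prod_congr rfl fun j _ => hper _ _ _ _ hp)
    (C := C) hC1 (by
      intro _ p n hp
      refine (abs_sub _ _).trans ?_
      rw [abs_one]
      have g1 := hfp t₀ p n hp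
      have g3 : 0 ≤ q * M ^ q * M * (1 + M ^ q) := by positivity
      rw [hC]
      nlinarith) (by
      intro _ p hp
      rw [avg_sub, avg_const hp.one_lt.le, avg_prod p (fun j => f j (t₀ j) p), abs_sub_comm]
      have e : (1 : ℝ) = ∏ j, c j (t₀ j) := (prod_eq_one fun j _ => hc j).symm
      have g1 := key t₀ p hp
      rw [← e] at g1
      have g4 : 0 ≤ (M ^ q * (1 + M ^ q) + 1 + q * M ^ q * M * M ^ q) / Real.sqrt p := by positivity
      calc _ ≤ q * M ^ q * (M / Real.sqrt p) := g1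
        _ ≤ q * M ^ q * (M / Real.sqrt p) + (M ^ q * (1 + M ^ q) + 1 + q * M ^ q * M * M ^ q) / Real.sqrt p := by linarith
        _ = C / Real.sqrt p := by rw [hC]; ring)
  refine ForAlmostAll.and h1 h2 ?_
  intro θ x m g1 g2 P hP t
  exact ⟨g1 P hP t (mem_univ _), g2 P hP () (mem_univ _)⟩

end Pool.Agent.Q93.KM
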